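import Pool.Agent.R291.SCMain

/-!
# MP_655ac3_an, Q1: the characterization of amenability by generic renormings fails

There is a countable amenable (indeed solvable) group `G` such that neither in the space of all
actions of `G` on `C(2^ℕ)` by linear isometries nor in the space of the actions by positive linear
isometries the set of actions admitting a `G`-invariant strictly convex renorming is comeager.
-/

namespace Pool.Agent.Results.MP_655ac3_an.AmenableNotGeneric

open Pool.Agent.R291.SC

theorem result :
    ∃ (G : Type) (_ : Group G), Countable G ∧ Amenable G ∧
      (¬ {α : Act G | Renormable α} ∈ residual (Act G)) ∧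
      (¬ {α : ActPos G | Renormable α.1} ∈ residual (ActPos G)) ∧
      (∃ V : Set (Act G), IsOpen V ∧ (∃ α : ActPos G, α.1 ∈ V) ∧ ∀ α ∈ V, ¬ Renormable α) :=
  ⟨Aff, inferInstance, inferInstance, aff_amenable, main_act, main_pos,
    V, V_open, ⟨⟨base, base_pos⟩, base_mem⟩, fun _ h => not_renormable h⟩

end Pool.Agent.Results.MP_655ac3_an.AmenableNotGeneric
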